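import Mathlib

open scoped BigOperators InnerProductSpace

namespace Pool.Agent.Results.MP_ccba48_gt.LowerBound

/-- a point of the polar body of a set whose hull contains the unit ball has norm at most one -/
lemma polar_norm_le {n : ℕ} (P : Finset (EuclideanSpace ℝ (Fin n)))
    (hP : Metric.closedBall (0 : EuclideanSpace ℝ (Fin n)) 1 ⊆
      convexHull ℝ (↑P : Set (EuclideanSpace ℝ (Fin n))))
    (x : EuclideanSpace ℝ (Fin n)) (hx : ∀ p ∈ P, ⟪x, p⟫_ℝ ≤ 1) : ‖x‖ ≤ 1 := by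
  by_cases h0 : x = 0
  · simp [h0]
  have hn : 0 < ‖x‖ := norm_pos_iff.mpr h0
  have hconv : Convex ℝ {y : EuclideanSpace ℝ (Fin n) | ⟪x, y⟫_ℝ ≤ 1} := by
    have := convex_halfSpace_le (𝕜 := ℝ) (f := fun y : EuclideanSpace ℝ (Fin n) => ⟪x, y⟫_ℝ)
      (IsLinearMap.mk (fun a b => inner_add_right x a b)
        (fun c a => by simp [inner_smul_right])) 1
    exact this
  have hsub : convexHull ℝ (↑P : Set (EuclideanSpace ℝ (Fin n))) ⊆
      {y : EuclideanSpace ℝ (Fin n) | ⟪x, y⟫_ℝ ≤ 1} :=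
    convexHull_min (fun p hp => hx p (by simpa using hp)) hconv
  have hu : (‖x‖⁻¹ • x) ∈ Metric.closedBall (0 : EuclideanSpace ℝ (Fin n)) 1 := by
    simp [norm_smul, hn.ne']
  have h1 := hsub (hP hu)
  simp only [Set.mem_ofPred_eq, inner_smul_right, real_inner_self_eq_norm_sq] at h1
  have h2 : ‖x‖⁻¹ * ‖x‖ ^ 2 = ‖x‖ := by
    field_simp
  linarith

/-- the profile function -/
noncomputable def ff (a b z : ℝ) : ℝ := Real.exp (-(a * z) - b * z ^ 2)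

lemma ff_nonneg (a b z : ℝ) : 0 ≤ ff a b z := (Real.exp_pos _).le

lemma ff_zero (a b : ℝ) : ff a b 0 = 1 := by simp [ff]

lemma hasDerivAt_ff (a b z : ℝ) :
    HasDerivAt (ff a b) (-(a + 2 * b * z) * ff a b z) z := by
  have h1 : HasDerivAt (fun z : ℝ => -(a * z) - b * z ^ 2) (-(a + 2 * b * z)) z := by
    have h := ((hasDerivAt_id z).const_mul a).neg.sub (((hasDerivAt_id z).pow 2).const_mul b)
    refine h.congr_deriv ?_
    simp
    ring
  have h2 := h1.exp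
  refine h2.congr_deriv ?_
  simp only [ff]
  ring

lemma hasDerivAt_ff_comp (a b : ℝ) {g : ℝ → ℝ} {g' s : ℝ} (hg : HasDerivAt g g' s) :
    HasDerivAt (fun s => ff a b (g s)) (-(a + 2 * b * g s) * ff a b (g s) * g') s :=
  (hasDerivAt_ff a b (g s)).comp s hg

/-- second order necessary condition at a local maximum -/
lemma second_deriv_nonpos {φ φ' : ℝ → ℝ} {c : ℝ} (hφ : ∀ s, HasDerivAt φ (φ' s) s)
    (hφ' : HasDerivAt φ' c 0) (hmax : IsLocalMax φ 0) : c ≤ 0 := by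
  by_contra hc
  push Not at hc
  have hd : deriv φ = φ' := funext fun s => (hφ s).deriv
  have hdd : deriv (deriv φ) 0 = c := by rw [hd]; exact hφ'.deriv
  have h0 : deriv φ 0 = 0 := hmax.deriv_eq_zero
  have hmin : IsLocalMin φ 0 :=
    isLocalMin_of_deriv_deriv_pos (by rw [hdd]; exact hc) h0 (hφ 0).continuousAt
  have heq : φ =ᶠ[nhds 0] fun _ => φ 0 := by
    filter_upwards [hmax, hmin] with s h1 h2
    exact le_antisymm h1 h2
  have h1 : deriv φ =ᶠ[nhds 0] deriv (fun _ => φ 0) := heq.deriv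
  have h2 : deriv (deriv φ) 0 = deriv (deriv (fun _ : ℝ => φ 0)) 0 := h1.deriv_eq
  rw [hdd] at h2
  simp at h2
  linarith

section key

variable {n : ℕ} (P : Finset (EuclideanSpace ℝ (Fin n))) (a b : ℝ)

/-- potential -/
noncomputable def pot (η : ℝ) (x : EuclideanSpace ℝ (Fin n)) (σ : ℝ) : ℝ :=
  ‖x‖ ^ 2 + ((n : ℝ) - η) * σ ^ 2 -
    ∑ p ∈ P, σ ^ 2 * ff a b ((1 - ⟪x, p⟫_ℝ) / (‖p‖ * σ))

/-- derivative of the potential along a line in the space variable -/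
lemma hasDerivAt_space (η : ℝ) (x v : EuclideanSpace ℝ (Fin n)) (σ : ℝ) (hσ : 0 < σ)
    (hp0 : ∀ p ∈ P, p ≠ 0) (s : ℝ) :
    HasDerivAt (fun s : ℝ => pot P a b η (x + s • v) σ)
      (2 * ⟪x, v⟫_ℝ + 2 * s * ‖v‖ ^ 2 - ∑ p ∈ P, σ ^ 2 *
        ((⟪v, p⟫_ℝ / (‖p‖ * σ)) * (a + 2 * b * ((1 - ⟪x, p⟫_ℝ - s * ⟪v, p⟫_ℝ) / (‖p‖ * σ))) *
          ff a b ((1 - ⟪x, p⟫_ℝ - s * ⟪v, p⟫_ℝ) / (‖p‖ * σ)))) s := by
  have hfun : (fun s : ℝ => pot P a b η (x + s • v) σ) = fun s : ℝ =>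
      (‖x‖ ^ 2 + 2 * s * ⟪x, v⟫_ℝ + s ^ 2 * ‖v‖ ^ 2) + ((n : ℝ) - η) * σ ^ 2 -
        ∑ p ∈ P, σ ^ 2 * ff a b ((1 - ⟪x, p⟫_ℝ - s * ⟪v, p⟫_ℝ) / (‖p‖ * σ)) := by
    funext s
    unfold pot
    rw [norm_add_sq_real]
    simp only [inner_add_left, inner_smul_left, inner_smul_right, norm_smul, Real.norm_eq_abs,
      mul_pow, sq_abs, conj_trivial]
    congr 1
    · ring
    · refine Finset.sum_congr rfl fun p _ => ?_
      congr 3
      ring
  rw [hfun]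
  have h1 : HasDerivAt (fun s : ℝ => (‖x‖ ^ 2 + 2 * s * ⟪x, v⟫_ℝ + s ^ 2 * ‖v‖ ^ 2) +
      ((n : ℝ) - η) * σ ^ 2) (2 * ⟪x, v⟫_ℝ + 2 * s * ‖v‖ ^ 2) s := by
    have h := (((((hasDerivAt_id s).const_mul 2).mul_const ⟪x, v⟫_ℝ).const_add (‖x‖ ^ 2)).add
      (((hasDerivAt_id s).pow 2).mul_const (‖v‖ ^ 2))).add_const (((n : ℝ) - η) * σ ^ 2)
    refine h.congr_deriv ?_
    simp
  refine h1.sub (HasDerivAt.fun_sum fun p hp => ?_)
  have hpn : ‖p‖ * σ ≠ 0 := mul_ne_zero (norm_ne_zero_iff.mpr (hp0 p hp)) hσ.ne'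
  refine HasDerivAt.const_mul (σ ^ 2) ?_
  have h2 : HasDerivAt (fun s : ℝ => (1 - ⟪x, p⟫_ℝ - s * ⟪v, p⟫_ℝ) / (‖p‖ * σ))
      (-(⟪v, p⟫_ℝ / (‖p‖ * σ))) s := by
    have h := (((hasDerivAt_id s).mul_const ⟪v, p⟫_ℝ).const_sub (1 - ⟪x, p⟫_ℝ)).div_const
      (‖p‖ * σ)
    refine h.congr_deriv ?_
    simp [neg_div]
  have h3 := hasDerivAt_ff_comp a b h2
  refine h3.congr_deriv ?_
  ring

/-- the second derivative along a line at the base point -/
lemma hasDerivAt_space2 (x v : EuclideanSpace ℝ (Fin n)) (σ : ℝ) (hσ : 0 < σ)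
    (hp0 : ∀ p ∈ P, p ≠ 0) :
    HasDerivAt (fun s : ℝ => 2 * ⟪x, v⟫_ℝ + 2 * s * ‖v‖ ^ 2 - ∑ p ∈ P, σ ^ 2 *
        ((⟪v, p⟫_ℝ / (‖p‖ * σ)) * (a + 2 * b * ((1 - ⟪x, p⟫_ℝ - s * ⟪v, p⟫_ℝ) / (‖p‖ * σ))) *
          ff a b ((1 - ⟪x, p⟫_ℝ - s * ⟪v, p⟫_ℝ) / (‖p‖ * σ))))
      (2 * ‖v‖ ^ 2 - ∑ p ∈ P, (⟪v, p⟫_ℝ ^ 2 / ‖p‖ ^ 2) *
        (((a + 2 * b * ((1 - ⟪x, p⟫_ℝ) / (‖p‖ * σ))) ^ 2 - 2 * b) *
          ff a b ((1 - ⟪x, p⟫_ℝ) / (‖p‖ * σ)))) 0 := by
  have h1 : HasDerivAt (fun s : ℝ => 2 * ⟪x, v⟫_ℝ + 2 * s * ‖v‖ ^ 2) (2 * ‖v‖ ^ 2) 0 := by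
    have h := (((hasDerivAt_id (0:ℝ)).const_mul 2).mul_const (‖v‖ ^ 2)).const_add (2 * ⟪x, v⟫_ℝ)
    refine h.congr_deriv ?_
    simp
  refine h1.sub (HasDerivAt.fun_sum fun p hp => ?_)
  have hp1 : ‖p‖ ≠ 0 := norm_ne_zero_iff.mpr (hp0 p hp)
  have h2 : HasDerivAt (fun s : ℝ => (1 - ⟪x, p⟫_ℝ - s * ⟪v, p⟫_ℝ) / (‖p‖ * σ))
      (-(⟪v, p⟫_ℝ / (‖p‖ * σ))) 0 := by
    have h := (((hasDerivAt_id (0:ℝ)).mul_const ⟪v, p⟫_ℝ).const_sub (1 - ⟪x, p⟫_ℝ)).div_const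
      (‖p‖ * σ)
    refine h.congr_deriv ?_
    simp [neg_div]
  have h3 := hasDerivAt_ff_comp a b h2
  have h4 := ((((h2.const_mul (2 * b)).const_add a).const_mul (⟪v, p⟫_ℝ / (‖p‖ * σ))).mul
    h3).const_mul (σ ^ 2)
  refine h4.congr_deriv ?_
  simp only [zero_mul, sub_zero]
  field_simp
  ring

/-- derivative of the potential in the time variable -/
lemma hasDerivAt_time (η : ℝ) (x : EuclideanSpace ℝ (Fin n)) (σ : ℝ) (hσ : 0 < σ)
    (hp0 : ∀ p ∈ P, p ≠ 0) :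
    HasDerivAt (fun σ : ℝ => pot P a b η x σ)
      (σ * (2 * ((n : ℝ) - η) - ∑ p ∈ P,
        (2 + ((1 - ⟪x, p⟫_ℝ) / (‖p‖ * σ)) * (a + 2 * b * ((1 - ⟪x, p⟫_ℝ) / (‖p‖ * σ)))) *
          ff a b ((1 - ⟪x, p⟫_ℝ) / (‖p‖ * σ)))) σ := by
  unfold pot
  have h1 : HasDerivAt (fun σ : ℝ => ‖x‖ ^ 2 + ((n : ℝ) - η) * σ ^ 2)
      (σ * (2 * ((n : ℝ) - η))) σ := by
    have h := (((hasDerivAt_id σ).pow 2).const_mul ((n : ℝ) - η)).const_add (‖x‖ ^ 2)
    refine h.congr_deriv ?_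
    simp
    ring
  have h5 : HasDerivAt (fun σ : ℝ => ∑ p ∈ P, σ ^ 2 * ff a b ((1 - ⟪x, p⟫_ℝ) / (‖p‖ * σ)))
      (∑ p ∈ P, σ * ((2 + ((1 - ⟪x, p⟫_ℝ) / (‖p‖ * σ)) *
        (a + 2 * b * ((1 - ⟪x, p⟫_ℝ) / (‖p‖ * σ)))) *
          ff a b ((1 - ⟪x, p⟫_ℝ) / (‖p‖ * σ)))) σ := by
    refine HasDerivAt.fun_sum fun p hp => ?_
    have hp1 : ‖p‖ ≠ 0 := norm_ne_zero_iff.mpr (hp0 p hp)
    have hpn : ‖p‖ * σ ≠ 0 := mul_ne_zero hp1 hσ.ne'
    have h2 : HasDerivAt (fun σ : ℝ => (1 - ⟪x, p⟫_ℝ) / (‖p‖ * σ))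
        (-((1 - ⟪x, p⟫_ℝ) / (‖p‖ * σ)) / σ) σ := by
      have h := (((hasDerivAt_id σ).const_mul ‖p‖).inv hpn).const_mul (1 - ⟪x, p⟫_ℝ)
      refine (h.congr_deriv ?_).congr_of_eventuallyEq ?_
      · simp only [id]
        field_simp
      · filter_upwards with t
        simp [div_eq_mul_inv]
    have h3 := hasDerivAt_ff_comp a b h2
    have h4 := (hasDerivAt_pow 2 σ).mul h3
    refine h4.congr_deriv ?_
    field_simp
    ring
  have h6 := h1.sub h5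
  refine h6.congr_deriv ?_
  rw [← Finset.mul_sum]
  ring

/-- the maximum principle: the initial value of the potential is bounded by its final value -/
lemma pot_le
    (hF : ∀ z : ℝ, 0 ≤ z → (a + 2 * b * z) ^ 2 - 2 * b ≤ 2 + z * (a + 2 * b * z))
    (hG : ∀ z : ℝ, 0 ≤ z → 0 ≤ (a + 2 * b * z) ^ 2 - 2 * b)
    (hp0 : ∀ p ∈ P, p ≠ 0)
    (hQ : ∀ x : EuclideanSpace ℝ (Fin n), (∀ p ∈ P, ⟪x, p⟫_ℝ ≤ 1) → ‖x‖ ≤ 1)
    (η : ℝ) (hη : 0 < η) (σ₀ T : ℝ) (hσ₀ : 0 < σ₀) (hT : σ₀ < T) :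
    pot P a b η 0 T ≤ 1 + n * σ₀ ^ 2 := by
  set Q : Set (EuclideanSpace ℝ (Fin n)) := {x | ∀ p ∈ P, ⟪x, p⟫_ℝ ≤ 1} with hQdef
  have hQclosed : IsClosed Q := by
    have : Q = ⋂ p ∈ P, {x : EuclideanSpace ℝ (Fin n) | ⟪x, p⟫_ℝ ≤ 1} := by
      ext x; simp [hQdef]
    rw [this]
    refine isClosed_biInter fun p _ => ?_
    exact isClosed_le (continuous_id.inner continuous_const) continuous_const
  have hQbdd : Bornology.IsBounded Q := by
    refine (Metric.isBounded_closedBall (x := (0 : EuclideanSpace ℝ (Fin n))) (r := 1)).subset ?_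
    intro x hx
    simpa using hQ x hx
  have hQcomp : IsCompact Q := Metric.isCompact_of_isClosed_isBounded hQclosed hQbdd
  have hKcomp : IsCompact (Q ×ˢ Set.Icc σ₀ T) := hQcomp.prod isCompact_Icc
  have h0Q : (0 : EuclideanSpace ℝ (Fin n)) ∈ Q := by
    intro p _
    simp
  have hKne : (Q ×ˢ Set.Icc σ₀ T).Nonempty := ⟨(0, T), h0Q, ⟨hT.le, le_rfl⟩⟩
  have hcont : ContinuousOn (fun y : EuclideanSpace ℝ (Fin n) × ℝ => pot P a b η y.1 y.2)
      (Q ×ˢ Set.Icc σ₀ T) := by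
    unfold pot
    refine ContinuousOn.sub (by fun_prop) ?_
    refine continuousOn_finsetSum P fun p hp => ?_
    refine ContinuousOn.mul (by fun_prop) ?_
    unfold ff
    have hz : ContinuousOn (fun y : EuclideanSpace ℝ (Fin n) × ℝ =>
        (1 - ⟪y.1, p⟫_ℝ) / (‖p‖ * y.2)) (Q ×ˢ Set.Icc σ₀ T) := by
      refine ContinuousOn.div (by fun_prop) (by fun_prop) ?_
      rintro ⟨x, σ⟩ ⟨_, hσ⟩
      have : 0 < σ := lt_of_lt_of_le hσ₀ hσ.1
      exact mul_ne_zero (norm_ne_zero_iff.mpr (hp0 p hp)) this.ne'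
    exact ((hz.const_mul a).neg.sub ((hz.pow 2).const_mul b)).rexp
  obtain ⟨⟨x, σ⟩, ⟨hxQ, hσ⟩, hmax⟩ := hKcomp.exists_isMaxOn hKne hcont
  have hxQ' : ∀ p ∈ P, ⟪x, p⟫_ℝ ≤ 1 := hxQ
  have hσ' : σ₀ ≤ σ ∧ σ ≤ T := hσ
  have hmax' : ∀ y ∈ Q, ∀ τ ∈ Set.Icc σ₀ T, pot P a b η y τ ≤ pot P a b η x σ := by
    intro y hy τ hτ
    exact isMaxOn_iff.mp hmax (y, τ) ⟨hy, hτ⟩
  have hstart : pot P a b η 0 T ≤ pot P a b η x σ := hmax' 0 h0Q T ⟨hT.le, le_rfl⟩
  have hσpos : 0 < σ := lt_of_lt_of_le hσ₀ hσ'.1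
  have hxn : ‖x‖ ≤ 1 := hQ x hxQ'
  rcases eq_or_lt_of_le hσ'.1 with heq | hlt
  · refine hstart.trans ?_
    have h1 : 0 ≤ ∑ p ∈ P, σ ^ 2 * ff a b ((1 - ⟪x, p⟫_ℝ) / (‖p‖ * σ)) :=
      Finset.sum_nonneg fun p _ => mul_nonneg (sq_nonneg _) (ff_nonneg _ _ _)
    have h2 : ‖x‖ ^ 2 ≤ 1 := by nlinarith [norm_nonneg x]
    unfold pot
    rw [heq]
    nlinarith [sq_nonneg σ]
  · exfalso
    -- the numbers z
    set z : EuclideanSpace ℝ (Fin n) → ℝ := fun p => (1 - ⟪x, p⟫_ℝ) / (‖p‖ * σ) with hz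
    have hz0 : ∀ p ∈ P, 0 ≤ z p := fun p hp =>
      div_nonneg (by linarith [hxQ' p hp]) (by positivity)
    -- time derivative
    have htime : ∑ p ∈ P, (2 + z p * (a + 2 * b * z p)) * ff a b (z p) ≤ 2 * ((n : ℝ) - η) := by
      have hd := hasDerivAt_time P a b η x σ hσpos hp0
      have hle : ∀ τ ∈ Set.Icc σ₀ σ, pot P a b η x τ ≤ pot P a b η x σ := fun τ hτ =>
        hmax' x hxQ τ ⟨hτ.1, hτ.2.trans hσ'.2⟩
      have hmx : IsLocalMaxOn (fun τ => pot P a b η x τ) (Set.Icc σ₀ σ) σ :=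
        Filter.eventually_of_mem self_mem_nhdsWithin hle
      have hy : (σ₀ - σ) ∈ posTangentConeAt (Set.Icc σ₀ σ) σ := by
        apply sub_mem_posTangentConeAt_of_segment_subset
        rw [segment_symm, segment_eq_Icc hlt.le]
      have h1 := hmx.hasFDerivWithinAt_nonpos hd.hasFDerivAt.hasFDerivWithinAt hy
      simp only [ContinuousLinearMap.toSpanSingleton_apply, smul_eq_mul] at h1
      have h2 : σ₀ - σ < 0 := by linarith
      have h3 : 0 ≤ σ * (2 * ((n : ℝ) - η) - ∑ p ∈ P, (2 + z p * (a + 2 * b * z p)) *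
          ff a b (z p)) := by
        by_contra hneg
        push Not at hneg
        nlinarith [mul_pos_of_neg_of_neg h2 hneg]
      have h4 := nonneg_of_mul_nonneg_right h3 hσpos
      linarith
    -- active set
    classical
    set A : Finset (EuclideanSpace ℝ (Fin n)) := P.filter (fun p => ⟪x, p⟫_ℝ = 1) with hA
    set L : Submodule ℝ (EuclideanSpace ℝ (Fin n)) :=
      (Submodule.span ℝ (A : Set (EuclideanSpace ℝ (Fin n))))ᗮ with hL
    have hspace : ∀ v ∈ L, 2 * ‖v‖ ^ 2 ≤ ∑ p ∈ P, (⟪v, p⟫_ℝ ^ 2 / ‖p‖ ^ 2) *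
        (((a + 2 * b * z p) ^ 2 - 2 * b) * ff a b (z p)) := by
      intro v hv
      have hvA : ∀ p ∈ A, ⟪v, p⟫_ℝ = 0 := by
        intro p hp
        rw [real_inner_comm]
        exact (Submodule.mem_orthogonal _ _).mp hv p (Submodule.subset_span (by simpa using hp))
      have hloc : IsLocalMax (fun s : ℝ => pot P a b η (x + s • v) σ) 0 := by
        have hev : ∀ᶠ s : ℝ in nhds 0, ∀ p ∈ P, ⟪x + s • v, p⟫_ℝ ≤ 1 := by
          rw [Filter.eventually_all_finset]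
          intro p hp
          by_cases hpA : ⟪x, p⟫_ℝ = 1
          · have : ⟪v, p⟫_ℝ = 0 := hvA p (by simp [hA, hp, hpA])
            filter_upwards with s
            simp [inner_add_left, inner_smul_left, this, hpA]
          · have hlt1 : ⟪x, p⟫_ℝ < 1 := lt_of_le_of_ne (hxQ' p hp) hpA
            have hc : Continuous fun s : ℝ => ⟪x + s • v, p⟫_ℝ := by fun_prop
            have h0 : ⟪x + (0 : ℝ) • v, p⟫_ℝ < 1 := by simpa using hlt1
            have := (hc.tendsto 0).eventually (gt_mem_nhds h0)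
            filter_upwards [this] with s hs using hs.le
        filter_upwards [hev] with s hs
        simpa using hmax' (x + s • v) hs σ ⟨hσ'.1, hσ'.2⟩
      have h2 := second_deriv_nonpos (fun s => hasDerivAt_space P a b η x v σ hσpos hp0 s)
        (hasDerivAt_space2 P a b x v σ hσpos hp0) hloc
      linarith
    -- sum over an orthonormal basis of L
    set B := stdOrthonormalBasis ℝ L with hB
    have hBon : Orthonormal ℝ (fun i => (B i : EuclideanSpace ℝ (Fin n))) :=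
      B.orthonormal.comp_linearIsometry L.subtypeₗᵢ
    have hsum : 2 * (Module.finrank ℝ L : ℝ) ≤ ∑ p ∈ P, if p ∈ A then 0 else
        (((a + 2 * b * z p) ^ 2 - 2 * b) * ff a b (z p)) := by
      have h1 : ∑ i, 2 * ‖(B i : EuclideanSpace ℝ (Fin n))‖ ^ 2 = 2 * (Module.finrank ℝ L : ℝ) := by
        have : ∀ i, ‖(B i : EuclideanSpace ℝ (Fin n))‖ = 1 := fun i => hBon.norm_eq_one i
        simp [this]
        ring
      rw [← h1]
      have h2 : ∑ i, 2 * ‖(B i : EuclideanSpace ℝ (Fin n))‖ ^ 2 ≤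
          ∑ i, ∑ p ∈ P, (⟪(B i : EuclideanSpace ℝ (Fin n)), p⟫_ℝ ^ 2 / ‖p‖ ^ 2) *
        (((a + 2 * b * z p) ^ 2 - 2 * b) * ff a b (z p)) :=
        Finset.sum_le_sum fun i _ => hspace _ (B i).2
      refine h2.trans ?_
      rw [Finset.sum_comm]
      refine Finset.sum_le_sum fun p hp => ?_
      rw [← Finset.sum_mul, ← Finset.sum_div]
      split_ifs with hpA
      · have : ∀ i, ⟪(B i : EuclideanSpace ℝ (Fin n)), p⟫_ℝ = 0 := by
          intro i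
          rw [real_inner_comm]
          exact (Submodule.mem_orthogonal _ _).mp (B i).2 p
            (Submodule.subset_span (by simpa using hpA))
        simp [this]
      · have hbessel : ∑ i, ⟪(B i : EuclideanSpace ℝ (Fin n)), p⟫_ℝ ^ 2 ≤ ‖p‖ ^ 2 := by
          have := hBon.sum_inner_products_le (x := p) (s := Finset.univ)
          simpa [sq_abs] using this
        have hpn : 0 < ‖p‖ ^ 2 := by
          have := norm_pos_iff.mpr (hp0 p hp)
          positivity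
        have hle1 : (∑ i, ⟪(B i : EuclideanSpace ℝ (Fin n)), p⟫_ℝ ^ 2) / ‖p‖ ^ 2 ≤ 1 := by
          rw [div_le_one hpn]; exact hbessel
        have hnn : 0 ≤ ((a + 2 * b * z p) ^ 2 - 2 * b) * ff a b (z p) :=
          mul_nonneg (hG _ (hz0 p hp)) (ff_nonneg _ _ _)
        calc _ ≤ 1 * (((a + 2 * b * z p) ^ 2 - 2 * b) * ff a b (z p)) :=
              mul_le_mul_of_nonneg_right hle1 hnn
          _ = _ := one_mul _
    have hdim : (n : ℝ) ≤ A.card + Module.finrank ℝ L := by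
      have h1 : Module.finrank ℝ (Submodule.span ℝ (A : Set (EuclideanSpace ℝ (Fin n)))) +
          Module.finrank ℝ L = Module.finrank ℝ (EuclideanSpace ℝ (Fin n)) :=
        Submodule.finrank_add_finrank_orthogonal
          (Submodule.span ℝ (A : Set (EuclideanSpace ℝ (Fin n))))
      have h2 : Module.finrank ℝ (Submodule.span ℝ (A : Set (EuclideanSpace ℝ (Fin n)))) ≤
          A.card := finrank_span_finset_le_card A
      have h3 : Module.finrank ℝ (EuclideanSpace ℝ (Fin n)) = n := by simp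
      have h4 : n ≤ A.card + Module.finrank ℝ L := by
        rw [h3] at h1
        omega
      exact_mod_cast h4
    have hcomb : 2 * (A.card : ℝ) + ∑ p ∈ P, (if p ∈ A then 0 else
        (((a + 2 * b * z p) ^ 2 - 2 * b) * ff a b (z p))) ≤
        ∑ p ∈ P, (2 + z p * (a + 2 * b * z p)) * ff a b (z p) := by
      have h1 : 2 * (A.card : ℝ) = ∑ p ∈ P, if p ∈ A then (2 : ℝ) else 0 := by
        rw [← Finset.sum_filter]
        have : P.filter (fun p => p ∈ A) = A := by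
          ext p; simp [hA]
        rw [this]
        simp
        ring
      rw [h1, ← Finset.sum_add_distrib]
      refine Finset.sum_le_sum fun p hp => ?_
      split_ifs with hpA
      · have hz1 : z p = 0 := by
          have : ⟪x, p⟫_ℝ = 1 := (Finset.mem_filter.mp hpA).2
          simp [hz, this]
        rw [hz1, ff_zero]
        simp
      · have := mul_le_mul_of_nonneg_right (hF _ (hz0 p hp)) (ff_nonneg a b (z p))
        linarith
    linarith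

end key

/-- the limit form of the inequality -/
lemma limit_ineq {n : ℕ} (P : Finset (EuclideanSpace ℝ (Fin n))) (a b : ℝ)

    (hF : ∀ z : ℝ, 0 ≤ z → (a + 2 * b * z) ^ 2 - 2 * b ≤ 2 + z * (a + 2 * b * z))
    (hG : ∀ z : ℝ, 0 ≤ z → 0 ≤ (a + 2 * b * z) ^ 2 - 2 * b)
    (hp0 : ∀ p ∈ P, p ≠ 0)
    (hQ : ∀ x : EuclideanSpace ℝ (Fin n), (∀ p ∈ P, ⟪x, p⟫_ℝ ≤ 1) → ‖x‖ ≤ 1)
    (T : ℝ) (hT : 0 < T) :
    (n : ℝ) * T ^ 2 - ∑ p ∈ P, T ^ 2 * ff a b (1 / (‖p‖ * T)) ≤ 1 := by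
  have key : ∀ ε : ℝ, 0 < ε → ε < T →
      (n : ℝ) * T ^ 2 - ∑ p ∈ P, T ^ 2 * ff a b (1 / (‖p‖ * T)) ≤ 1 + n * ε ^ 2 + ε * T ^ 2 := by
    intro ε hε hεT
    have h := pot_le P a b hF hG hp0 hQ ε hε ε T hε hεT
    unfold pot at h
    simp only [inner_zero_left, sub_zero, norm_zero] at h
    linarith
  have hlim : Filter.Tendsto (fun ε : ℝ => 1 + (n : ℝ) * ε ^ 2 + ε * T ^ 2)
      (nhdsWithin 0 (Set.Ioi 0)) (nhds (1 + (n : ℝ) * 0 ^ 2 + 0 * T ^ 2)) := by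
    have hc : Continuous fun ε : ℝ => 1 + (n : ℝ) * ε ^ 2 + ε * T ^ 2 := by fun_prop
    exact (hc.tendsto 0).mono_left nhdsWithin_le_nhds
  have h1 : (n : ℝ) * T ^ 2 - ∑ p ∈ P, T ^ 2 * ff a b (1 / (‖p‖ * T)) ≤
      1 + (n : ℝ) * 0 ^ 2 + 0 * T ^ 2 := by
    refine ge_of_tendsto hlim ?_
    filter_upwards [Ioo_mem_nhdsGT hT] with ε hε
    exact key ε hε.1 hε.2
  linarith

/-- the linear bound for the profile -/
lemma ff_le (z : ℝ) (hz : 0 < z) :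
    ff (205299 / 129500) (29 / 100) z ≤ (2109 / 10000) / z := by
  rw [le_div_iff₀ hz]
  have hz1 : z ≤ (37 / 70) * Real.exp (z / (37 / 70) - 1) := by
    have h := Real.add_one_le_exp (z / (37 / 70) - 1)
    have h2 : z = (37 / 70) * (z / (37 / 70) - 1 + 1) := by ring
    calc z = (37 / 70) * (z / (37 / 70) - 1 + 1) := h2
      _ ≤ _ := by gcongr
  have h1 : ff (205299 / 129500) (29 / 100) z * z ≤
      (37 / 70) * Real.exp (-(205299 / 129500 * z) - 29 / 100 * z ^ 2 + (z / (37 / 70) - 1)) := by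
    rw [Real.exp_add, ff]
    calc _ ≤ Real.exp (-(205299 / 129500 * z) - 29 / 100 * z ^ 2) *
          ((37 / 70) * Real.exp (z / (37 / 70) - 1)) := by
          gcongr
      _ = _ := by ring
  refine h1.trans ?_
  have h2 : -(205299 / 129500 * z) - 29 / 100 * z ^ 2 + (z / (37 / 70) - 1) ≤
      (-1 : ℝ) + 39701 / 490000 := by
    nlinarith [sq_nonneg (z - 37 / 70)]
  have h3 : Real.exp (-(205299 / 129500 * z) - 29 / 100 * z ^ 2 + (z / (37 / 70) - 1)) ≤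
      Real.exp (-1) * Real.exp (39701 / 490000) := by
    rw [← Real.exp_add]
    exact Real.exp_le_exp.mpr h2
  have h4 : Real.exp (39701 / 490000) ≤ 10844 / 10000 := by
    have := Real.exp_bound' (x := 39701 / 490000) (by norm_num) (by norm_num) (n := 4) (by norm_num)
    refine this.trans ?_
    norm_num [Finset.sum_range_succ, Nat.factorial]
  have h5 : Real.exp (-1) ≤ 1 / 2.7182818283 := by
    rw [Real.exp_neg, ← one_div]
    exact one_div_le_one_div_of_le (by norm_num) Real.exp_one_gt_d9.le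
  have h6 : Real.exp (-1) * Real.exp (39701 / 490000) ≤ 1 / 2.7182818283 * (10844 / 10000) := by
    gcongr
  calc _ ≤ (37 / 70) * (Real.exp (-1) * Real.exp (39701 / 490000)) := by gcongr
    _ ≤ (37 / 70) * (1 / 2.7182818283 * (10844 / 10000)) := by gcongr
    _ ≤ 2109 / 10000 := by norm_num

/-- **Main theorem**: every finite point set whose convex hull contains the unit ball of
`ℝⁿ` has sum of norms at least `1.825 * n ^ (3/2)`. -/
theorem result : ∀ n : ℕ, 1 ≤ n → ∀ P : Finset (EuclideanSpace ℝ (Fin n)),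
    Metric.closedBall (0 : EuclideanSpace ℝ (Fin n)) 1 ⊆
      convexHull ℝ (↑P : Set (EuclideanSpace ℝ (Fin n))) →
    (73 / 40 : ℝ) * (n : ℝ) ^ ((3 : ℝ) / 2) ≤ ∑ p ∈ P, ‖p‖ := by
  intro n hn P hP
  classical
  set P' : Finset (EuclideanSpace ℝ (Fin n)) := P.erase 0 with hP'
  have hsumP : ∑ p ∈ P', ‖p‖ = ∑ p ∈ P, ‖p‖ := by
    rw [hP']
    exact Finset.sum_erase P (by simp)
  have hp0 : ∀ p ∈ P', p ≠ 0 := fun p hp => Finset.ne_of_mem_erase hp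
  have hQ : ∀ x : EuclideanSpace ℝ (Fin n), (∀ p ∈ P', ⟪x, p⟫_ℝ ≤ 1) → ‖x‖ ≤ 1 := by
    intro x hx
    refine polar_norm_le P hP x fun p hp => ?_
    by_cases h0 : p = 0
    · simp [h0]
    · exact hx p (Finset.mem_erase.mpr ⟨h0, hp⟩)
  have hnpos : (0 : ℝ) < n := by exact_mod_cast hn
  set T : ℝ := Real.sqrt (3 / n) with hTdef
  have hT : 0 < T := Real.sqrt_pos.mpr (by positivity)
  have hT2 : T ^ 2 = 3 / n := Real.sq_sqrt (by positivity)
  have hlim := limit_ineq P' (205299 / 129500) (29 / 100)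
    (by
      intro z hz
      nlinarith [sq_nonneg (z - 205299 / 129500 * (4 * (29 / 100) - 1) /
        (4 * (29 / 100) * (1 - 2 * (29 / 100))))])
    (by
      intro z hz
      nlinarith [sq_nonneg z])
    hp0 hQ T hT
  have hS : ∑ p ∈ P', T ^ 2 * ff (205299 / 129500) (29 / 100) (1 / (‖p‖ * T)) ≤
      (2109 / 10000) * T ^ 3 * ∑ p ∈ P', ‖p‖ := by
    rw [Finset.mul_sum]
    refine Finset.sum_le_sum fun p hp => ?_
    have hpn : 0 < ‖p‖ := norm_pos_iff.mpr (hp0 p hp)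
    have h := ff_le (1 / (‖p‖ * T)) (by positivity)
    have h2 : (2109 / 10000 : ℝ) / (1 / (‖p‖ * T)) = (2109 / 10000) * (‖p‖ * T) := by
      field_simp
    rw [h2] at h
    calc T ^ 2 * ff (205299 / 129500) (29 / 100) (1 / (‖p‖ * T)) ≤
          T ^ 2 * ((2109 / 10000) * (‖p‖ * T)) := by gcongr
      _ = _ := by ring
  have h1 : (n : ℝ) * T ^ 2 = 3 := by
    rw [hT2]
    field_simp
  have h2 : 2 ≤ (2109 / 10000) * T ^ 3 * ∑ p ∈ P', ‖p‖ := by linarith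
  rw [hsumP] at h2
  have hpow : (n : ℝ) ^ ((3 : ℝ) / 2) * T ^ 3 = 3 * Real.sqrt 3 := by
    have e1 : (n : ℝ) ^ ((3 : ℝ) / 2) = n * Real.sqrt n := by
      rw [show (3 : ℝ) / 2 = 1 + 1 / 2 by norm_num, Real.rpow_add hnpos, Real.rpow_one,
        ← Real.sqrt_eq_rpow]
    have e2 : T ^ 3 = 3 / n * T := by rw [← hT2]; ring
    have e3 : Real.sqrt n * T = Real.sqrt 3 := by
      rw [hTdef, ← Real.sqrt_mul (by positivity)]
      congr 1
      field_simp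
    rw [e1, e2]
    calc (n : ℝ) * Real.sqrt n * (3 / n * T) = 3 * (Real.sqrt n * T) := by field_simp
      _ = _ := by rw [e3]
  have hsqrt3 : Real.sqrt 3 ≤ 1.7320509 := by
    rw [Real.sqrt_le_left (by norm_num)]
    norm_num
  have hT3 : 0 < T ^ 3 := by positivity
  have h3 : (73 / 40 : ℝ) * (n : ℝ) ^ ((3 : ℝ) / 2) * T ^ 3 ≤ (∑ p ∈ P, ‖p‖) * T ^ 3 := by
    have : (73 / 40 : ℝ) * (n : ℝ) ^ ((3 : ℝ) / 2) * T ^ 3 = (73 / 40) * (3 * Real.sqrt 3) := by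
      rw [mul_assoc, hpow]
    rw [this]
    nlinarith
  exact le_of_mul_le_mul_right h3 hT3

end Pool.Agent.Results.MP_ccba48_gt.LowerBound
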